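import Pool.Agent.RotorShift.Rec

set_option autoImplicit false

namespace Pool.Agent.Results.MP_c4c6a0_pr.BlockRecurrence

open MeasureTheory Pool.Agent.RotorShift

/-- For every `d ≥ 3`: for every non-degenerate `L`-periodic rotor sequence made of blocks
`0, i, j` with `i ≠ j`, the uniform shift model on the `d`-ary tree is almost surely recurrent;
and such sequences exist. So the transience claim fails for every `d ≥ 3`. -/
theorem result (d : ℕ) (hd : 3 ≤ d) :
    (∀ (L : ℕ) (a : ℕ → Fin (d + 1)), 1 ≤ L → Nondegenerate a → IsPeriodic a L → BlockForm a →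
      ∀ᵐ k ∂(shiftLaw d L), IsRecurrent (shiftConfig a k)) ∧
    (∃ (L : ℕ) (a : ℕ → Fin (d + 1)), 1 ≤ L ∧ Nondegenerate a ∧ IsPeriodic a L ∧
      BlockForm a) := by
  constructor
  · intro L a hL hnd ha hb
    have : NeZero L := ⟨by omega⟩
    exact recurrent_of_blockForm ha hnd hb
  · have : NeZero d := ⟨by omega⟩
    exact ⟨3 * d, blockSeq d, by omega, blockSeq_nondegenerate d, blockSeq_periodic d,
      blockSeq_blockForm d (by omega)⟩

end Pool.Agent.Results.MP_c4c6a0_pr.BlockRecurrence
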