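import Pool.Agent.RotorShift.Trans

set_option autoImplicit false

namespace Pool.Agent.Results.MP_c4c6a0_pr.TransienceThird

open MeasureTheory Pool.Agent.RotorShift

/-- Let `d ≥ 2` and let `a` be a non-degenerate `L`-periodic rotor sequence in which either less
than a third of the entries of a period are `0` (point to the parent), or exactly a third of them
are `0` and `a` is not made of blocks `0, i, j` with `i ≠ j`. Then the uniform shift model is
almost surely transient. -/
theorem result (d : ℕ) (hd : 2 ≤ d) (L : ℕ) (hL : 1 ≤ L) (a : ℕ → Fin (d + 1))
    (hnd : Nondegenerate a) (ha : IsPeriodic a L)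
    (h : 3 * ((Finset.range L).filter fun n => a n = 0).card < L ∨
      (3 * ((Finset.range L).filter fun n => a n = 0).card = L ∧ ¬ BlockForm a)) :
    ∀ᵐ k ∂(shiftLaw d L), IsTransient (shiftConfig a k) := by
  have : NeZero L := ⟨by omega⟩
  have hnum : ((Finset.range L).filter fun n => a n = 0).card = num L a 0 := by
    unfold num cnt
    rw [Nat.count_eq_card_filter_range]
  rw [hnum] at h
  rcases h with h | ⟨h, hb⟩
  · exact transient_lt_third hd ha hnd h
  · exact transient_eq_third hd ha hnd h hb

end Pool.Agent.Results.MP_c4c6a0_pr.TransienceThird
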